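import Pool.Agent.TH573.NI.Main

/-!
# Short-interval disjointness from all nilrotations, for almost every modification of the Moebius
function on one extremely sparse set of primes

There is a set `Q` of primes, so sparse that the sum of the reciprocals of its members up to `y` is
`O((log* y)^2)` (`log*` is the iterated logarithm), with the following property. Let `g` be any
completely multiplicative function with values `1` and `-1`, for instance the Liouville function,
let `w 0, w 1, …` be bounded weights, for instance the square of the Moebius function, and choose the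
signs at the primes of `Q` at random. Almost surely the resulting completely multiplicative function
`f`, which agrees with `g` at all primes outside `Q`, satisfies

  `∑_{n ≤ N} (1/n) sup_{g, x} |∑_{h ≤ H} φ(g ^ (h + n) x Γ) w s (n + h) f |P (n + h)|| ≤ ε H log N`

for all `N ≥ H ≥ H₀`, for all connected nilpotent Lie groups `G`, all discrete cocompact subgroups
`Γ`, all continuous functions `φ` on `G / Γ`, all integer polynomials `P` which are not a constant
times a square, and all `s`; and the same without the weights `1 / n`, with `ε H N`. The supremum is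
over all `g` and `x` in `G`.

Method. (1) The words of all nilrotations of a given nilmanifold together have covering numbers
`exp(o(H))`, in fact polynomial ones (`Pool.Agent.TH573.NI.low`): for every `g` the subgroup generated
by `g` and a fixed finite set has a lower central series with compact fundamental domains that do
not depend on `g` (`Pool.Agent.TH573.NI.final_alg`, a uniform form of `Pool.Agent.H399R5.final_alg` of
the starting files), therefore `g ^ m` is, modulo `Γ`, a universal word of polynomial length in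
boundedly many parameters from a fixed compact set (`H514N.taskC`, starting files), and words of
polynomial length in a nilpotent Lie group depend on their letters in a polynomially controlled way.
(2) The almost sure correlations of `f |P|` (`Pool.Agent.TH573.SM.main`, which rests on
`Pool.Agent.H220M.asWeight` of the starting files) show that most windows of a fixed length are
nearly orthogonal to all these words (`Pool.Agent.TH573.UE.strong`), and an averaging argument gives
all lengths `H` and all `N ≥ H`.
-/

set_option autoImplicit false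

namespace Pool.Agent.Results.MP_663568_nt.AlmostAllModifications

open Finset Filter MeasureTheory Pool.Agent.H220M
open Pool.Agent.TH573.SM (tower)
open scoped Polynomial Manifold

open Classical in
theorem result : ∃ Q : Set ℕ, (∀ q ∈ Q, q.Prime) ∧
    (∃ K : ℝ, ∀ n : ℕ, ∑ q ∈ (Icc 1 (tower n)).filter (fun q => q ∈ Q), (1 : ℝ) / q ≤ K * n ^ 2) ∧
    ∀ g : ℕ →*₀ ℤ, (∀ p : ℕ, p.Prime → g p = 1 ∨ g p = -1) →
    ∀ w : ℕ → ℕ → ℝ, (∀ s n, |w s n| ≤ 1) →
    ∀ᵐ ω ∂coins, ∃! f : ℕ →*₀ ℤ, IsModif g Q ω f ∧
      ∀ (s : ℕ) (P : ℤ[X]), (¬ ∃ (c : ℤ) (R : ℤ[X]), P = Polynomial.C c * R ^ 2) →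
      ∀ (E : Type) [NormedAddCommGroup E] [NormedSpace ℝ E] [FiniteDimensional ℝ E]
        (G : Type) [Group G] [TopologicalSpace G] [ChartedSpace E G]
        [LieGroup 𝓘(ℝ, E) ((⊤ : ℕ∞) : WithTop ℕ∞) G] [ConnectedSpace G] [Group.IsNilpotent G]
        (Γ : Subgroup G) [DiscreteTopology Γ] [CompactSpace (G ⧸ Γ)]
        (φ : G ⧸ Γ → ℂ), Continuous φ →
      ∀ ε : ℝ, 0 < ε → ∃ H₀ : ℕ, ∀ N H : ℕ, H₀ ≤ H → H ≤ N →
        ∑ n ∈ Icc 1 N, (1 / (n : ℝ)) * (⨆ p : G × G, ‖∑ h ∈ Icc 1 H,
          φ (QuotientGroup.mk (p.1 ^ (h + n) * p.2)) * ((w s (n + h) : ℂ) *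
            (((f (P.eval ((n + h : ℕ) : ℤ)).natAbs : ℤ) : ℝ) : ℂ))‖) ≤ ε * H * Real.log N ∧
        ∑ n ∈ Icc 1 N, (⨆ p : G × G, ‖∑ h ∈ Icc 1 H,
          φ (QuotientGroup.mk (p.1 ^ (h + n) * p.2)) * ((w s (n + h) : ℂ) *
            (((f (P.eval ((n + h : ℕ) : ℤ)).natAbs : ℤ) : ℝ) : ℂ))‖) ≤ ε * H * N := by
  refine ⟨Pool.Agent.TH573.SM.sparse, fun q hq => hq.1, ?_, fun g hg w hw => ?_⟩
  · obtain ⟨K, hK⟩ := Pool.Agent.TH573.SM.sparse_sum
    refine ⟨K, fun n => ?_⟩
    refine le_trans (Finset.sum_le_sum_of_subset_of_nonneg ?_ fun q _ _ => by positivity) (hK n)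
    intro q hq
    rw [mem_filter, mem_Icc] at hq ⊢
    obtain ⟨h1, hp, i, h2, h3⟩ := hq
    refine ⟨h1, i, ?_, hp, h2, h3⟩
    by_contra h
    have := Pool.Agent.TH573.SM.tower_strictMono.monotone (not_lt.1 h)
    omega
  · filter_upwards [Pool.Agent.TH573.NI.free_one g hg w] with ω' hω
    obtain ⟨f, u, hf, hfu, hfree⟩ := hω
    refine ⟨f, ⟨hf, ?_⟩, fun f' hf' => isModif_unique g _ ω' f' f hf'.1 hf⟩
    intro s P hP E _ _ _ G _ _ _ _ _ _ Γ hΓ hc φ hφ ε hε
    exact Pool.Agent.TH573.NI.nil_short f u hfu (w s) (hw s) P (hfree s P hP) E G Γ hΓ hc φ hφ ε hε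

end Pool.Agent.Results.MP_663568_nt.AlmostAllModifications
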