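import Pool.Agent.TH327.Dim.Torus
import Pool.Agent.TH327.Dim.Inst

/-! Short-interval Moebius disjointness for rotations of tori, uniformly over the rotations in a set of upper
box dimension less than one half. -/

set_option autoImplicit false

open Finset

namespace Pool.Agent.Results.MP_663568_nt.SmallFrequencySets

/-- The covering numbers of the subset `E` of the torus `ℝ^d/ℤ^d` are at most `C n ^ s`: for each `n ≥ 1` there
is a set of at most `C n ^ s` points such that each point of `E` is within `1 / n` of one of them (in the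
maximum metric). -/
def Covering {d : ℕ} (E : Set (Fin d → UnitAddCircle)) (C s : ℝ) : Prop :=
  ∀ n : ℕ, 1 ≤ n → ∃ S : Finset (Fin d → UnitAddCircle), (S.card : ℝ) ≤ C * (n : ℝ) ^ s ∧
    ∀ g ∈ E, ∃ y ∈ S, dist g y ≤ 1 / n

/-- The supremum of `|∑_{h ≤ H} f(x + (h + n) g) μ(n + h)|` over all rotations `g` in `E` and all starting
points `x` of the torus. -/
noncomputable def windowSup {d : ℕ} (E : Set (Fin d → UnitAddCircle)) (f : C(Fin d → UnitAddCircle, ℂ))
    (n H : ℕ) : ℝ :=
  ⨆ p : E × (Fin d → UnitAddCircle), ‖∑ h ∈ Icc 1 H, f (p.2 + (h + n) • (p.1 : Fin d → UnitAddCircle)) *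
    ((ArithmeticFunction.moebius (n + h) : ℤ) : ℂ)‖

open Pool.Agent.TH327.Dim in
lemma choose_near {d : ℕ} (E : Set (Fin d → UnitAddCircle)) (f : C(Fin d → UnitAddCircle, ℂ)) (n H : ℕ)
    (hE : E.Nonempty) (δ : ℝ) (hδ : 0 < δ) :
    ∃ ω : (Fin d → UnitAddCircle) × (Fin d → UnitAddCircle), ω.1 ∈ E ∧
      windowSup E f n H ≤ ‖∑ m ∈ Ioc n (n + H), muf m * evT ω m f‖ + δ := by
  obtain ⟨g0, hg0⟩ := hE
  have : Nonempty (E × (Fin d → UnitAddCircle)) := ⟨(⟨g0, hg0⟩, 0)⟩
  obtain ⟨p, hp⟩ := exists_lt_of_lt_ciSup (show windowSup E f n H - δ < windowSup E f n H by linarith)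
  refine ⟨(p.1, p.2), p.1.2, ?_⟩
  have e : ∑ m ∈ Ioc n (n + H), muf m * evT ((p.1 : Fin d → UnitAddCircle), p.2) m f =
      ∑ h ∈ Icc 1 H, f (p.2 + (h + n) • (p.1 : Fin d → UnitAddCircle)) *
        ((ArithmeticFunction.moebius (n + h) : ℤ) : ℂ) := by
    have h1 : Ioc n (n + H) = (Icc 1 H).image (fun h => n + h) := by
      ext m
      simp only [mem_Ioc, mem_image, mem_Icc]
      constructor
      · intro h; exact ⟨m - n, by omega, by omega⟩
      · rintro ⟨j, hj, rfl⟩; omega
    rw [h1, sum_image fun a _ b _ hab => by omega]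
    refine sum_congr rfl fun h _ => ?_
    rw [mul_comm, add_comm h n]
    rfl
  rw [e]
  linarith

open Pool.Agent.TH327.Dim in
/-- **Short-interval Möbius disjointness on tori with a small set of rotations.** Let `s < 1/2`. For each
continuous `f` on the torus `ℝ^d/ℤ^d`, uniformly over all sets `E` of rotations with covering numbers at most
`C n ^ s`,
`∑_{n ≤ N} (1/n) sup_{g ∈ E, x} |∑_{h ≤ H} f(x + (h + n) g) μ(n + h)| = o(H log N)` as `H → ∞`, uniformly over
`N ≥ H`, and the same holds for the sums without the weights `1/n`, with `o(H N)`. -/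
theorem result (d : ℕ) (f : C(Fin d → UnitAddCircle, ℂ)) (C s : ℝ) (hs : s < 1 / 2) (ε : ℝ) (hε : 0 < ε) :
    ∃ H₀ : ℕ, ∀ N H : ℕ, H₀ ≤ H → H ≤ N → ∀ E : Set (Fin d → UnitAddCircle), Covering E C s →
      ∑ n ∈ Icc 1 N, (1 / (n : ℝ)) * windowSup E f n H ≤ ε * H * Real.log N ∧
      ∑ n ∈ Icc 1 N, windowSup E f n H ≤ ε * H * N := by
  have hF : ∀ h ∈ ({muf} : Set (ℕ → ℂ)), ∀ n, ‖h n‖ ≤ 1 := by
    intro h hh n
    rw [Set.mem_singleton_iff] at hh
    rw [hh]; exact muf_le n
  have hs0 : max s 0 < 1 / 2 := max_lt hs (by norm_num)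
  have hPW := PW_torus hF (s := max s 0) (fun C' hC' => good_mob hC' (le_max_right _ _) hs0) d (max C 0)
    (le_max_right _ _) f
  obtain ⟨H1, h1⟩ := PW_log hF evT_le hPW (ε / 2) (by positivity)
  obtain ⟨H2, h2⟩ := hPW (ε / 4) (by positivity)
  refine ⟨max (max H1 H2) 3, fun N H hH hN E hE => ?_⟩
  have b1 : H1 ≤ H := le_trans (le_trans (le_max_left _ _) (le_max_left _ _)) hH
  have b2 : H2 ≤ H := le_trans (le_trans (le_max_right _ _) (le_max_left _ _)) hH
  have b3 : 3 ≤ H := le_trans (le_max_right _ _) hH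
  have hHr : (0 : ℝ) < H := by exact_mod_cast (by omega : 0 < H)
  have hNr : (3 : ℝ) ≤ N := by exact_mod_cast b3.trans hN
  have hlog : 1 ≤ Real.log N := by
    rw [Real.le_log_iff_exp_le (by linarith)]
    linarith [Real.exp_one_lt_d9]
  rcases E.eq_empty_or_nonempty with hem | hne
  · subst hem
    have h0 : ∀ n, windowSup (∅ : Set (Fin d → UnitAddCircle)) f n H = 0 := fun n => Real.iSup_of_isEmpty _
    simp only [h0, mul_zero, sum_const_zero]
    constructor <;> positivity
  choose ω hω1 hω2 using fun n => choose_near E f n H hne (ε / 4 * H) (by positivity)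
  have hEP : CovT E (max C 0) (max s 0) := covT_mono hE
  have hωP : ∀ x, ω x ∈ PT d (max C 0) (max s 0) ⟨E, hEP⟩ := fun x => hω1 x
  have a1 := h1 H b1 N hN ⟨E, hEP⟩ muf rfl ω hωP
  have a2 := h2 H b2 (N + 1) (by omega) ⟨E, hEP⟩ muf rfl ω hωP
  constructor
  · have h3 := harmonic_le_one_add_log N
    have h4 : ∑ n ∈ Icc 1 N, 1 / (n : ℝ) ≤ 1 + Real.log N := by
      refine le_trans (le_of_eq ?_) h3
      rw [harmonic_eq_sum_Icc]
      push_cast
      exact sum_congr rfl fun x _ => one_div _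
    calc ∑ n ∈ Icc 1 N, (1 / (n : ℝ)) * windowSup E f n H ≤
        ∑ n ∈ Icc 1 N, (‖∑ m ∈ Ioc n (n + H), muf m * evT (ω n) m f‖ / n + ε / 4 * H * (1 / (n : ℝ))) := by
          refine sum_le_sum fun n hn => ?_
          rw [mem_Icc] at hn
          have hn0 : (0 : ℝ) < n := by exact_mod_cast hn.1
          have := mul_le_mul_of_nonneg_left (hω2 n) (show (0 : ℝ) ≤ 1 / n by positivity)
          refine this.trans (le_of_eq ?_)
          ring
      _ = ∑ n ∈ Icc 1 N, ‖∑ m ∈ Ioc n (n + H), muf m * evT (ω n) m f‖ / n + ε / 4 * H * ∑ n ∈ Icc 1 N, 1 / (n : ℝ) := by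
          rw [sum_add_distrib, mul_sum]
      _ ≤ ε / 2 * H * Real.log N + ε / 4 * H * (1 + Real.log N) :=
          add_le_add a1 (mul_le_mul_of_nonneg_left h4 (by positivity))
      _ ≤ ε * H * Real.log N := by
          have : 0 < ε * H := by positivity
          nlinarith
  · calc ∑ n ∈ Icc 1 N, windowSup E f n H ≤
        ∑ n ∈ Icc 1 N, (‖∑ m ∈ Ioc n (n + H), muf m * evT (ω n) m f‖ + ε / 4 * H) := sum_le_sum fun n _ => hω2 n
      _ = ∑ n ∈ Icc 1 N, ‖∑ m ∈ Ioc n (n + H), muf m * evT (ω n) m f‖ + N * (ε / 4 * H) := by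
          rw [sum_add_distrib, sum_const, Nat.card_Icc, nsmul_eq_mul]; simp
      _ ≤ ∑ n ∈ range (N + 1), ‖∑ m ∈ Ioc n (n + H), muf m * evT (ω n) m f‖ + N * (ε / 4 * H) := by
          apply add_le_add _ le_rfl
          apply sum_le_sum_of_subset_of_nonneg
          · intro x hx
            rw [mem_Icc] at hx
            rw [mem_range]; omega
          · intro x _ _; exact norm_nonneg _
      _ ≤ ε / 4 * H * ((N + 1 : ℕ) : ℝ) + N * (ε / 4 * H) := add_le_add a2 le_rfl
      _ ≤ ε * H * N := by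
          push_cast
          have : 0 < ε * H := by positivity
          nlinarith

end Pool.Agent.Results.MP_663568_nt.SmallFrequencySets
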